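import Pool.Agent.X288.IR.Auto

/-!
# Irreducibility for every `ℓ` from the Galois group of one Hecke polynomial

Let `π` be an algebraic cuspidal automorphic representation of `GL_n` over `ℚ` (regular or not) and
`ρ : Gal(ℚbar/ℚ) → GL_n(ℚbar_ℓ)` a continuous representation attached to `π`.  Let `p ≠ ℓ` be one
prime number at which the `n` Satake parameters are different and suppose that the automorphisms of
`ℂ` which permute them act doubly transitively (for example that the Galois group of the Hecke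
polynomial at `p` over the field of its coefficients is the symmetric or the alternating group,
`n ≥ 4` in the second case).  Then `ρ` is irreducible, for every `ℓ ≠ p`, except if all Satake
parameters at `p` are roots of unity times the same rational power of `p`.  We also treat the
essentially self-dual case.
-/

set_option autoImplicit false

namespace Pool.Agent.Results.MP_fa5bba_nt.DoublyTransitiveHecke

open NumberField Polynomial Matrix Module

/-- `Q` is a prime ideal above the prime number `p` of the ring of all algebraic integers. -/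
def PrimeOver (p : ℕ) (Q : Ideal (𝓞 (AlgebraicClosure ℚ))) : Prop :=
  Q.IsPrime ∧ (p : 𝓞 (AlgebraicClosure ℚ)) ∈ Q

/-- `g` is an (arithmetic) Frobenius element at the prime ideal `Q` above `p`. -/
def IsFrobenius (p : ℕ) (Q : Ideal (𝓞 (AlgebraicClosure ℚ))) (g : Gal(AlgebraicClosure ℚ/ℚ)) :
    Prop := ∀ x : 𝓞 (AlgebraicClosure ℚ), g • x - x ^ p ∈ Q

variable {ℓ : ℕ} [Fact ℓ.Prime] {n : ℕ}

/-- The matrix of `g`. -/
noncomputable def mat (ρ : Gal(AlgebraicClosure ℚ/ℚ) →* GL (Fin n) (PadicAlgCl ℓ))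
    (g : Gal(AlgebraicClosure ℚ/ℚ)) : Matrix (Fin n) (Fin n) (PadicAlgCl ℓ) :=
  (ρ g : GL (Fin n) (PadicAlgCl ℓ))

/-- The eigenvalues (with multiplicities) of every geometric Frobenius element at `p` correspond
under `ι` to the complex numbers in `S`. -/
def AttachedAt (ρ : Gal(AlgebraicClosure ℚ/ℚ) →* GL (Fin n) (PadicAlgCl ℓ))
    (ι : PadicAlgCl ℓ →+* ℂ) (p : ℕ) (S : Multiset ℂ) : Prop :=
  ∀ Q, PrimeOver p Q → ∀ g, IsFrobenius p Q g → ((mat ρ g⁻¹).charpoly.map ι).roots = S

/-- `U` is a subrepresentation of `ρ`. -/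
def Stable (ρ : Gal(AlgebraicClosure ℚ/ℚ) →* GL (Fin n) (PadicAlgCl ℓ))
    (U : Submodule (PadicAlgCl ℓ) (Fin n → PadicAlgCl ℓ)) : Prop := ∀ g, ∀ x ∈ U, mat ρ g *ᵥ x ∈ U

/-- `ρ` is irreducible. -/
def Irreducible (ρ : Gal(AlgebraicClosure ℚ/ℚ) →* GL (Fin n) (PadicAlgCl ℓ)) : Prop :=
  0 < n ∧ ∀ U, Stable ρ U → U = ⊥ ∨ U = ⊤

/-- `z` is a root of unity times `p ^ w` (for a rational `w`): some power `z ^ N`, `N ≥ 1`, is
`p ^ a` with an integer `a = N w`. -/
def IsPower (p : ℕ) (z : ℂ) (w : ℚ) : Prop :=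
  ∃ (N : ℕ) (a : ℤ), 0 < N ∧ (a : ℚ) = N * w ∧ z ^ N = (p : ℂ) ^ a

/-- The automorphism `σ` of the field `ℂ` permutes the members of `S`. -/
def Permutes (σ : ℂ ≃+* ℂ) (S : Multiset ℂ) : Prop := S.map σ = S

/-- **Irreducibility for every `ℓ` from one Hecke polynomial.**

Let complex numbers `S p` be given for the primes `p` in a set `T` (in the application the
eigenvalues of the Satake parameters `a_σ`, `σ = π_p ⊗ |det|^((1-n)/2)`, of an algebraic cuspidal
automorphic representation `π` of `GL_n`), algebraic for at least three `p` in `T`, let `ℓ ∉ T`, and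
let `ρ` be continuous and attached to `S` at all primes in `T`.  Let `p ∈ T` be such that the `n`
numbers in `S p` are different.

1. If for all `a ≠ b` and `c ≠ d` in `S p` some automorphism of `ℂ` permutes `S p` and maps `a` to
`c` and `b` to `d`, then `ρ` is irreducible or all members of `S p` are roots of unity times the same
rational power of `p`.
2. Let `q` be a root of unity times a rational power of `p` such that with `a` also `q / a ≠ a` is in
`S p`.  Suppose that the automorphisms of `ℂ` which fix `q` and permute `S p` act transitively on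
`S p`, and that for all `a`, `b` in `S p` with `b ≠ a`, `b ≠ q / a` one of them fixes `a` and maps
`b` to `q / b`.  Then all subrepresentations of `ρ` (hence all its composition factors) have even
dimension or all members of `S p` are roots of unity times the same rational power of `p`. -/
theorem result (ℓ : ℕ) [Fact ℓ.Prime] {n : ℕ} (hn : 0 < n) (S : ℕ → Multiset ℂ) (T : Set ℕ)
    (hT : ∀ p ∈ T, p.Prime ∧ p ≠ ℓ) (halg : 3 ≤ {p ∈ T | ∀ a ∈ S p, IsAlgebraic ℚ a}.encard)
    (ι : PadicAlgCl ℓ →+* ℂ) (ρ : Gal(AlgebraicClosure ℚ/ℚ) →* GL (Fin n) (PadicAlgCl ℓ))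
    (hρ : Continuous ρ) (hS : ∀ p ∈ T, AttachedAt ρ ι p (S p)) (p : ℕ) (hp : p ∈ T)
    (hnd : (S p).Nodup) :
    ((∀ a ∈ S p, ∀ b ∈ S p, ∀ c ∈ S p, ∀ d ∈ S p, a ≠ b → c ≠ d →
        ∃ σ : ℂ ≃+* ℂ, Permutes σ (S p) ∧ σ a = c ∧ σ b = d) →
      Irreducible ρ ∨ ∃ w : ℚ, ∀ a ∈ S p, IsPower p a w) ∧
    ∀ (q : ℂ) (v : ℚ), IsPower p q v → (∀ a ∈ S p, a * a ≠ q ∧ q / a ∈ S p) →
      (∀ a ∈ S p, ∀ b ∈ S p, ∃ σ : ℂ ≃+* ℂ, σ q = q ∧ Permutes σ (S p) ∧ σ a = b) →
      (∀ a ∈ S p, ∀ b ∈ S p, b ≠ a → a * b ≠ q →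
        ∃ σ : ℂ ≃+* ℂ, σ q = q ∧ Permutes σ (S p) ∧ σ a = a ∧ σ b = q / b) →
      (∀ U, Stable ρ U → Even (finrank (PadicAlgCl ℓ) U)) ∨
        ∃ w : ℚ, ∀ a ∈ S p, IsPower p a w := by
  classical
  have hgood : ∀ p ∈ T, ∀ Q : Ideal (𝓞 (AlgebraicClosure ℚ)), Q.IsPrime →
      (p : 𝓞 (AlgebraicClosure ℚ)) ∈ Q → ∀ g, IsFrobenius p Q g →
      ((mat ρ g⁻¹).charpoly.map ι).roots = S p :=
    fun p hp Q hQ hpQ g hg => hS p hp Q ⟨hQ, hpQ⟩ g hg
  have hT₀ : {p ∈ T | ∀ a ∈ S p, IsAlgebraic ℚ a} ⊆ T := fun p hp => hp.1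
  have hparts := fun U (hU : Stable ρ U) => Pool.Agent.X288.IR.two_parts ρ hρ ι T _ hT₀ halg hT S
    hgood (fun p hp => hp.2) U (fun g x hx => hU g x hx)
  have hcardS : Multiset.card (S p) = n := by
    obtain ⟨w, w', h⟩ := hparts ⊤ (fun g x _ => Submodule.mem_top)
    obtain ⟨A, B, hAB, hA, -, -⟩ := h p hp
    have h1 : Multiset.card (S p) ≤ n := by
      obtain ⟨P, σ, hP, hpP, hσ⟩ := Pool.Agent.Y115.T.exists_frobQ (hT p hp).1
      rw [← hgood p hp P hP.isPrime hpP σ hσ]
      refine (Polynomial.card_roots' _).trans ?_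
      rw [Polynomial.natDegree_map, Matrix.charpoly_natDegree_eq_dim, Fintype.card_fin]
    have h2 : Multiset.card A = n := by rw [hA, finrank_top, finrank_fin_fun]
    have h3 := congrArg Multiset.card hAB
    rw [Multiset.card_add] at h3
    omega
  refine ⟨fun h2 => ?_, fun q v hq hdual htr h2 => ?_⟩
  · by_cases hirr : Irreducible ρ
    · exact Or.inl hirr
    right
    have hcon : ∃ U, Stable ρ U ∧ U ≠ ⊥ ∧ U ≠ ⊤ := by
      by_contra hcon
      push Not at hcon
      exact hirr ⟨hn, fun U hU => or_iff_not_imp_left.2 fun h => hcon U hU h⟩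
    obtain ⟨U, hU, h0, h1⟩ := hcon
    obtain ⟨w, w', h⟩ := hparts U hU
    obtain ⟨A, B, hAB, hA, hAw, hBw⟩ := h p hp
    have hd0 : 0 < finrank (PadicAlgCl ℓ) U := by
      rw [Nat.pos_iff_ne_zero]
      intro h
      exact h0 (Submodule.finrank_eq_zero.1 h)
    have hd1 : finrank (PadicAlgCl ℓ) U < n := by
      have h2 := Submodule.finrank_lt h1
      rwa [finrank_fin_fun] at h2
    have h3 := congrArg Multiset.card hAB
    rw [Multiset.card_add, hcardS, hA] at h3
    refine Pool.Agent.X288.IR.dt_final (hT p hp).1.two_le hnd h2 hAB hAw hBw ?_ ?_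
    · rintro rfl
      rw [Multiset.card_zero] at hA
      omega
    · rintro rfl
      rw [Multiset.card_zero] at h3
      omega
  · by_cases hall : ∃ w : ℚ, ∀ a ∈ S p, IsPower p a w
    · exact Or.inr hall
    left
    intro U hU
    obtain ⟨w, w', h⟩ := hparts U hU
    obtain ⟨A, B, hAB, hA, hAw, hBw⟩ := h p hp
    have hAS : A ≤ S p := hAB ▸ Multiset.le_add_right _ _
    have hp0 : 0 < p := (hT p hp).1.pos
    have hSrel : Pool.Agent.X288.IR.Rel p (S p).prod (w + w') := by
      rw [← hAB, Multiset.prod_add]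
      exact Pool.Agent.X288.IR.Rel.mul hp0 hAw hBw
    rcases Pool.Agent.X288.IR.sd_final (hT p hp).1.two_le hnd (v := v) hq hdual htr h2 hAB hAw hBw
      with h3 | h3
    · exact absurd h3 hall
    · rw [← hA]
      exact Pool.Agent.X288.IR.even_card hnd hAS (Pool.Agent.X288.IR.Rel.ne_zero (w := v) hp0 hq)
        (Pool.Agent.X288.IR.ne_zero_of_prod hp0 hSrel) (fun a ha => (hdual a ha).1) h3

end Pool.Agent.Results.MP_fa5bba_nt.DoublyTransitiveHecke
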