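import Pool.Agent.X288.IR.Crit

/-!
# Multiplicative relations between Satake parameters and the composition factors for every `ℓ`

Let `π` be an algebraic cuspidal automorphic representation of `GL_n` over `ℚ` (regular or not) and
`ρ : Gal(ℚbar/ℚ) → GL_n(ℚbar_ℓ)` a continuous representation attached to `π`.  We show that every
composition factor of `ρ` has a dimension `d` and a weight `w ∈ ℚ`, such that at EVERY prime `p ≠ ℓ`
where `ρ` is attached to `π` the Satake parameters are divided among the composition factors, `d`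
parameters with product (root of unity) `p ^ w` for a factor of type `(d, w)`.  So `ρ` is
irreducible, for every `ℓ`, as soon as no type `(d, w)` with `0 < d ≤ n / 2` is possible at all
primes; for this one prime `p` can be enough, for example if the `p`-adic and the complex absolute
value of the product of at most half of the Satake parameters at `p` are never inverse to each
other, or, for `n ≤ 3`, if no Satake parameter at `p` is a root of unity times a rational power of
`p`.
-/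

set_option autoImplicit false

namespace Pool.Agent.Results.MP_fa5bba_nt.FrobeniusRelations

open NumberField Polynomial Matrix Module

/-- `Q` is a prime ideal above the prime number `p` of the ring of all algebraic integers. -/
def PrimeOver (p : ℕ) (Q : Ideal (𝓞 (AlgebraicClosure ℚ))) : Prop :=
  Q.IsPrime ∧ (p : 𝓞 (AlgebraicClosure ℚ)) ∈ Q

/-- `g` is an (arithmetic) Frobenius element at the prime ideal `Q` above `p`. -/
def IsFrobenius (p : ℕ) (Q : Ideal (𝓞 (AlgebraicClosure ℚ))) (g : Gal(AlgebraicClosure ℚ/ℚ)) :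
    Prop := ∀ x : 𝓞 (AlgebraicClosure ℚ), g • x - x ^ p ∈ Q

variable {ℓ : ℕ} [Fact ℓ.Prime] {n : ℕ}

/-- The matrix of `g`. -/
noncomputable def mat (ρ : Gal(AlgebraicClosure ℚ/ℚ) →* GL (Fin n) (PadicAlgCl ℓ))
    (g : Gal(AlgebraicClosure ℚ/ℚ)) : Matrix (Fin n) (Fin n) (PadicAlgCl ℓ) :=
  (ρ g : GL (Fin n) (PadicAlgCl ℓ))

/-- The eigenvalues (with multiplicities) of every geometric Frobenius element at `p` correspond
under `ι` to the complex numbers in `S`. -/
def AttachedAt (ρ : Gal(AlgebraicClosure ℚ/ℚ) →* GL (Fin n) (PadicAlgCl ℓ))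
    (ι : PadicAlgCl ℓ →+* ℂ) (p : ℕ) (S : Multiset ℂ) : Prop :=
  ∀ Q, PrimeOver p Q → ∀ g, IsFrobenius p Q g → ((mat ρ g⁻¹).charpoly.map ι).roots = S

/-- `U` is a subrepresentation of `ρ`. -/
def Stable (ρ : Gal(AlgebraicClosure ℚ/ℚ) →* GL (Fin n) (PadicAlgCl ℓ))
    (U : Submodule (PadicAlgCl ℓ) (Fin n → PadicAlgCl ℓ)) : Prop := ∀ g, ∀ x ∈ U, mat ρ g *ᵥ x ∈ U

/-- `ρ` is irreducible. -/
def Irreducible (ρ : Gal(AlgebraicClosure ℚ/ℚ) →* GL (Fin n) (PadicAlgCl ℓ)) : Prop :=
  0 < n ∧ ∀ U, Stable ρ U → U = ⊥ ∨ U = ⊤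

/-- `z` is a root of unity times `p ^ w` (for a rational `w`): some power `z ^ N`, `N ≥ 1`, is
`p ^ a` with an integer `a = N w`. -/
def IsPower (p : ℕ) (z : ℂ) (w : ℚ) : Prop :=
  ∃ (N : ℕ) (a : ℤ), 0 < N ∧ (a : ℚ) = N * w ∧ z ^ N = (p : ℂ) ^ a

/-- The numbers in `S` can be divided into `c` parts, the `i`-th part (`i < c`) consisting of `d i`
numbers with product (root of unity) `p ^ (w i)`. -/
def Divides (p : ℕ) (S : Multiset ℂ) (c : ℕ) (d : ℕ → ℕ) (w : ℕ → ℚ) : Prop :=
  ∃ B : ℕ → Multiset ℂ, (∀ i < c, Multiset.card (B i) = d i ∧ IsPower p (B i).prod (w i)) ∧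
    ∑ i ∈ Finset.range c, B i = S

/-- **The types of the composition factors, and irreducibility for every `ℓ`.**

Let complex numbers `S p` be given for the primes `p` in a set `T` (in the application the
eigenvalues of the Satake parameters `a_σ`, `σ = π_p ⊗ |det|^((1-n)/2)`, of an algebraic cuspidal
automorphic representation `π` of `GL_n`), algebraic for at least three `p` in `T`, let `ℓ ∉ T`, and
let `ρ` be continuous and attached to `S` at all primes in `T`.

1. For every strictly increasing chain `0 = V 0 < V 1 < ⋯ < V c = V` of subrepresentations there are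
rational weights `w i` such that for every `p ∈ T` the numbers in `S p` can be divided into `c`
parts, the `i`-th part consisting of `dim (V (i + 1) / V i)` numbers with product
(root of unity) `p ^ (w i)`.  If for one `p ∈ T` the quotients of the numbers in `S p` have absolute
value less than `p` then the weights per dimension of any two factors differ by less than one; if
for one `p ∈ T` all numbers in `S p` have the absolute value `p ^ u`, the weights per dimension are
all equal to `u`.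
2. If for every `d` with `0 < d ≤ n / 2` and every rational `w` there is a prime `p ∈ T` such that
the product of `d` of the numbers in `S p` is never a root of unity times `p ^ w`, then `ρ` is
irreducible.
3. If for one `p ∈ T` and one absolute value `v` of `ℂ` with `v(p) = 1 / p` the number `v(z) |z|` is
different from `1` for all products `z` of `d` numbers in `S p`, `0 < d ≤ n / 2`, then `ρ` is
irreducible.
4. If `n ≤ 3` and for one `p ∈ T` no number in `S p` is a root of unity times a rational power of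
`p`, then `ρ` is irreducible. -/
theorem result (ℓ : ℕ) [Fact ℓ.Prime] {n : ℕ} (hn : 0 < n) (S : ℕ → Multiset ℂ) (T : Set ℕ)
    (hT : ∀ p ∈ T, p.Prime ∧ p ≠ ℓ) (halg : 3 ≤ {p ∈ T | ∀ a ∈ S p, IsAlgebraic ℚ a}.encard)
    (ι : PadicAlgCl ℓ →+* ℂ) (ρ : Gal(AlgebraicClosure ℚ/ℚ) →* GL (Fin n) (PadicAlgCl ℓ))
    (hρ : Continuous ρ) (hS : ∀ p ∈ T, AttachedAt ρ ι p (S p)) :
    (∀ (c : ℕ) (V : ℕ → Submodule (PadicAlgCl ℓ) (Fin n → PadicAlgCl ℓ)),
      (∀ i ≤ c, Stable ρ (V i)) → V 0 = ⊥ → V c = ⊤ → (∀ i < c, V i < V (i + 1)) →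
      ∃ w : ℕ → ℚ,
        (∀ p ∈ T, Divides p (S p) c
          (fun i => finrank (PadicAlgCl ℓ) (V (i + 1)) - finrank (PadicAlgCl ℓ) (V i)) w) ∧
        ((∃ p ∈ T, ∀ a ∈ S p, ∀ b ∈ S p, ‖a‖ < p * ‖b‖) → ∀ i < c, ∀ j < c,
          |w i / (finrank (PadicAlgCl ℓ) (V (i + 1)) - finrank (PadicAlgCl ℓ) (V i)) -
            w j / (finrank (PadicAlgCl ℓ) (V (j + 1)) - finrank (PadicAlgCl ℓ) (V j))| < 1) ∧
        ∀ u : ℝ, (∃ p ∈ T, ∀ a ∈ S p, ‖a‖ = (p : ℝ) ^ u) → ∀ i < c,
          (w i : ℝ) = (finrank (PadicAlgCl ℓ) (V (i + 1)) - finrank (PadicAlgCl ℓ) (V i)) * u) ∧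
    ((∀ d : ℕ, 0 < d → 2 * d ≤ n → ∀ w : ℚ, ∃ p ∈ T, ∀ A ≤ S p, Multiset.card A = d →
      ¬ IsPower p A.prod w) → Irreducible ρ) ∧
    (∀ p ∈ T, ∀ v : AbsoluteValue ℂ ℝ, v p = (p : ℝ)⁻¹ →
      (∀ A ≤ S p, 0 < Multiset.card A → 2 * Multiset.card A ≤ n → v A.prod * ‖A.prod‖ ≠ 1) →
      Irreducible ρ) ∧
    (n ≤ 3 → ∀ p ∈ T, (∀ a ∈ S p, ∀ w : ℚ, ¬ IsPower p a w) → Irreducible ρ) := by
  classical
  have hgood : ∀ p ∈ T, ∀ Q : Ideal (𝓞 (AlgebraicClosure ℚ)), Q.IsPrime →
      (p : 𝓞 (AlgebraicClosure ℚ)) ∈ Q → ∀ g, IsFrobenius p Q g →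
      ((mat ρ g⁻¹).charpoly.map ι).roots = S p :=
    fun p hp Q hQ hpQ g hg => hS p hp Q ⟨hQ, hpQ⟩ g hg
  have hT₀ : {p ∈ T | ∀ a ∈ S p, IsAlgebraic ℚ a} ⊆ T := fun p hp => hp.1
  have hrel : ∀ U, Stable ρ U → U ≠ ⊥ → U ≠ ⊤ → ∃ (d : ℕ) (w : ℚ), 0 < d ∧ 2 * d ≤ n ∧
      ∀ p ∈ T, ∃ A ≤ S p, Multiset.card A = d ∧ IsPower p A.prod w :=
    fun U hU h0 h1 => Pool.Agent.X288.IR.small_relation ρ hρ ι T _ hT₀ halg hT S hgood
      (fun p hp => hp.2) U (fun g x hx => hU g x hx) h0 h1
  refine ⟨fun c V hV h0 hc hlt => ?_, fun h => ⟨hn, fun U hU => ?_⟩,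
    fun p hp v hv h => ⟨hn, fun U hU => ?_⟩, fun h3 p hp h => ⟨hn, fun U hU => ?_⟩⟩
  · obtain ⟨w, hw⟩ := Pool.Agent.X288.IR.chain ρ hρ ι T _ hT₀ halg hT S hgood
      (fun p hp => hp.2) c V (fun i hi g x hx => hV i hi g x hx) h0 hc (fun i hi => (hlt i hi).le)
    have hpos : ∀ i < c, finrank (PadicAlgCl ℓ) (V i) < finrank (PadicAlgCl ℓ) (V (i + 1)) :=
      fun i hi => Submodule.finrank_lt_finrank_of_lt (hlt i hi)
    refine ⟨w, fun p hp => ?_, ?_, ?_⟩
    · obtain ⟨B, hB, hsum⟩ := hw p hp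
      exact ⟨B, fun i hi => ⟨by have := (hB i hi).1; show _ = _ - _; omega, (hB i hi).2⟩, hsum⟩
    · rintro ⟨p, hp, hJS⟩ i hi j hj
      obtain ⟨B, hB, hsum⟩ := hw p hp
      have hle : ∀ i < c, B i ≤ S p := fun i hi => by
        rw [← hsum]
        exact Finset.single_le_sum (f := B) (fun _ _ => Multiset.zero_le _) (Finset.mem_range.2 hi)
      have hcd : ∀ i < c, ((finrank (PadicAlgCl ℓ) (V (i + 1)) : ℚ) -
          finrank (PadicAlgCl ℓ) (V i)) = Multiset.card (B i) := fun i hi => by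
        have h1 := (hB i hi).1
        rw [← h1]
        push_cast
        ring
      have hc0 : ∀ i < c, 0 < Multiset.card (B i) := fun i hi => by
        have h1 := (hB i hi).1
        have h2 := hpos i hi
        omega
      rw [hcd i hi, hcd j hj, abs_lt]
      have k1 := Pool.Agent.X288.IR.js_weight (hT p hp).1.two_le (hle i hi) (hle j hj)
        (hB i hi).2 (hB j hj).2 (hc0 i hi) (hc0 j hj) hJS
      have k2 := Pool.Agent.X288.IR.js_weight (hT p hp).1.two_le (hle j hj) (hle i hi)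
        (hB j hj).2 (hB i hi).2 (hc0 j hj) (hc0 i hi) hJS
      constructor <;> linarith
    · rintro u ⟨p, hp, hu⟩ i hi
      obtain ⟨B, hB, hsum⟩ := hw p hp
      have hle : B i ≤ S p := by
        rw [← hsum]
        exact Finset.single_le_sum (f := B) (fun _ _ => Multiset.zero_le _) (Finset.mem_range.2 hi)
      have h1 := (hB i hi).1
      have h2 : ((finrank (PadicAlgCl ℓ) (V (i + 1)) : ℝ) -
          finrank (PadicAlgCl ℓ) (V i)) = Multiset.card (B i) := by
        rw [← h1]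
        push_cast
        ring
      rw [h2]
      exact Pool.Agent.X288.IR.temp_weight (hT p hp).1.two_le hle (hB i hi).2 hu
  · by_contra hcon
    push Not at hcon
    obtain ⟨d, w, hd, hdn, hrel⟩ := hrel U hU hcon.1 hcon.2
    obtain ⟨p, hp, hno⟩ := h d hd hdn w
    obtain ⟨A, hA, hcard, hAw⟩ := hrel p hp
    exact hno A hA hcard hAw
  · by_contra hcon
    push Not at hcon
    obtain ⟨d, w, hd, hdn, hrel⟩ := hrel U hU hcon.1 hcon.2
    obtain ⟨A, hA, hcard, hAw⟩ := hrel p hp
    exact h A hA (hcard ▸ hd) (hcard ▸ hdn)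
      (Pool.Agent.X288.IR.Rel.abv (hT p hp).1.pos hAw v hv)
  · by_contra hcon
    push Not at hcon
    obtain ⟨d, w, hd, hdn, hrel⟩ := hrel U hU hcon.1 hcon.2
    obtain ⟨A, hA, hcard, hAw⟩ := hrel p hp
    have hd1 : Multiset.card A = 1 := by omega
    obtain ⟨a, rfl⟩ := Multiset.card_eq_one.1 hd1
    rw [Multiset.prod_singleton] at hAw
    exact h a (Multiset.mem_of_le hA (Multiset.mem_singleton_self a)) w hAw

end Pool.Agent.Results.MP_fa5bba_nt.FrobeniusRelations
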