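import Pool.Agent.X288.IR.PPS

/-!
# One irreducible Hecke polynomial of prime power degree

Let `π` be an algebraic cuspidal automorphic representation of `GL_n` over `ℚ` (regular or not) and
`ρ : Gal(ℚbar/ℚ) → GL_n(ℚbar_ℓ)` a continuous representation attached to `π`.

If `n` is a prime number and the Hecke polynomial of `π` at one prime `p ≠ ℓ` is irreducible over the
field of its coefficients, then `ρ` is irreducible, except if all Satake parameters at `p` are roots
of unity times the same rational power of `p`.  If `n` is a power of a prime number `r`, then the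
dimensions of all composition factors of `ρ` are divisible by `r`, with the same exception.  We also
allow further Satake parameters which are roots of unity times powers of `p` (they occur for
essentially self-dual `π` and odd `n`), and treat the essentially self-dual case in dimension `2 r`
and `2 r + 1`.
-/

set_option autoImplicit false

namespace Pool.Agent.Results.MP_fa5bba_nt.PrimePowerHecke

open NumberField Polynomial Matrix Module

/-- `Q` is a prime ideal above the prime number `p` of the ring of all algebraic integers. -/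
def PrimeOver (p : ℕ) (Q : Ideal (𝓞 (AlgebraicClosure ℚ))) : Prop :=
  Q.IsPrime ∧ (p : 𝓞 (AlgebraicClosure ℚ)) ∈ Q

/-- `g` is an (arithmetic) Frobenius element at the prime ideal `Q` above `p`. -/
def IsFrobenius (p : ℕ) (Q : Ideal (𝓞 (AlgebraicClosure ℚ))) (g : Gal(AlgebraicClosure ℚ/ℚ)) :
    Prop := ∀ x : 𝓞 (AlgebraicClosure ℚ), g • x - x ^ p ∈ Q

variable {ℓ : ℕ} [Fact ℓ.Prime] {n : ℕ}

/-- The matrix of `g`. -/
noncomputable def mat (ρ : Gal(AlgebraicClosure ℚ/ℚ) →* GL (Fin n) (PadicAlgCl ℓ))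
    (g : Gal(AlgebraicClosure ℚ/ℚ)) : Matrix (Fin n) (Fin n) (PadicAlgCl ℓ) :=
  (ρ g : GL (Fin n) (PadicAlgCl ℓ))

/-- The eigenvalues (with multiplicities) of every geometric Frobenius element at `p` correspond
under `ι` to the complex numbers in `S`. -/
def AttachedAt (ρ : Gal(AlgebraicClosure ℚ/ℚ) →* GL (Fin n) (PadicAlgCl ℓ))
    (ι : PadicAlgCl ℓ →+* ℂ) (p : ℕ) (S : Multiset ℂ) : Prop :=
  ∀ Q, PrimeOver p Q → ∀ g, IsFrobenius p Q g → ((mat ρ g⁻¹).charpoly.map ι).roots = S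

/-- `U` is a subrepresentation of `ρ`. -/
def Stable (ρ : Gal(AlgebraicClosure ℚ/ℚ) →* GL (Fin n) (PadicAlgCl ℓ))
    (U : Submodule (PadicAlgCl ℓ) (Fin n → PadicAlgCl ℓ)) : Prop := ∀ g, ∀ x ∈ U, mat ρ g *ᵥ x ∈ U

/-- `z` is a root of unity times `p ^ w` (for a rational `w`): some power `z ^ N`, `N ≥ 1`, is
`p ^ a` with an integer `a = N w`. -/
def IsPower (p : ℕ) (z : ℂ) (w : ℚ) : Prop :=
  ∃ (N : ℕ) (a : ℤ), 0 < N ∧ (a : ℚ) = N * w ∧ z ^ N = (p : ℂ) ^ a

/-- The automorphism `σ` of the field `ℂ` permutes the members of `S`. -/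
def Permutes (σ : ℂ ≃+* ℂ) (S : Multiset ℂ) : Prop := S.map σ = S

/-- **One Hecke polynomial with an irreducible factor of prime power degree.**

Let complex numbers `S p` be given for the primes `p` in a set `T` (in the application the
eigenvalues of the Satake parameters `a_σ`, `σ = π_p ⊗ |det|^((1-n)/2)`, of an algebraic cuspidal
automorphic representation `π` of `GL_n`), algebraic for at least three `p` in `T`, let `ℓ ∉ T`, and
let `ρ` be continuous and attached to `S` at all primes in `T`.  Let `p ∈ T` and let `S p` consist of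
the different numbers in `X` and of the members of `Z`, all of which are roots of unity times rational
powers of `p` (`Z = ∅` is the main case).  Let `r` be a prime number.

1. If `X` has `r ^ k` members and the automorphisms of `ℂ` which permute them act transitively, then
all subrepresentations of `ρ` have dimension `m r + z` with `z ≤ |Z|` (divisible by `r` for `Z = ∅`,
hence `0` or `n` for `Z = ∅`, `n = r`), or the members of `X` are roots of unity times the same
rational power of `p`.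
2. Let `r` be odd, `|X| = 2 r`, and let `q` be a root of unity times a rational power of `p` such that
with `a` also `q / a ≠ a` is in `X`.  If the automorphisms of `ℂ` which fix `q` and permute `X` act
transitively on `X`, then all subrepresentations of `ρ` have dimension `2 m + z` or `r + z` with
`z ≤ |Z|`, with the same exception. -/
theorem result (ℓ : ℕ) [Fact ℓ.Prime] {n : ℕ} (S : ℕ → Multiset ℂ) (T : Set ℕ)
    (hT : ∀ p ∈ T, p.Prime ∧ p ≠ ℓ) (halg : 3 ≤ {p ∈ T | ∀ a ∈ S p, IsAlgebraic ℚ a}.encard)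
    (ι : PadicAlgCl ℓ →+* ℂ) (ρ : Gal(AlgebraicClosure ℚ/ℚ) →* GL (Fin n) (PadicAlgCl ℓ))
    (hρ : Continuous ρ) (hS : ∀ p ∈ T, AttachedAt ρ ι p (S p)) (p : ℕ) (hp : p ∈ T)
    (X Z : Multiset ℂ) (hXZ : S p = X + Z) (hnd : X.Nodup)
    (hZ : ∀ z ∈ Z, ∃ w : ℚ, IsPower p z w) (r : ℕ) (hr : r.Prime) :
    (∀ k : ℕ, Multiset.card X = r ^ k →
      (∀ a ∈ X, ∀ b ∈ X, ∃ σ : ℂ ≃+* ℂ, Permutes σ X ∧ σ a = b) →
      (∀ U, Stable ρ U → ∃ m z : ℕ, z ≤ Multiset.card Z ∧
        finrank (PadicAlgCl ℓ) U = m * r + z) ∨ ∃ w : ℚ, ∀ a ∈ X, IsPower p a w) ∧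
    (r ≠ 2 → Multiset.card X = 2 * r → ∀ (q : ℂ) (v : ℚ), IsPower p q v →
      (∀ a ∈ X, a * a ≠ q ∧ q / a ∈ X) →
      (∀ a ∈ X, ∀ b ∈ X, ∃ σ : ℂ ≃+* ℂ, σ q = q ∧ Permutes σ X ∧ σ a = b) →
      (∀ U, Stable ρ U → ∃ m z : ℕ, z ≤ Multiset.card Z ∧
        (finrank (PadicAlgCl ℓ) U = 2 * m + z ∨ finrank (PadicAlgCl ℓ) U = r + z)) ∨
        ∃ w : ℚ, ∀ a ∈ X, IsPower p a w) := by
  classical
  have hgood : ∀ p ∈ T, ∀ Q : Ideal (𝓞 (AlgebraicClosure ℚ)), Q.IsPrime →
      (p : 𝓞 (AlgebraicClosure ℚ)) ∈ Q → ∀ g, IsFrobenius p Q g →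
      ((mat ρ g⁻¹).charpoly.map ι).roots = S p :=
    fun p hp Q hQ hpQ g hg => hS p hp Q ⟨hQ, hpQ⟩ g hg
  have hT₀ : {p ∈ T | ∀ a ∈ S p, IsAlgebraic ℚ a} ⊆ T := fun p hp => hp.1
  have hparts := fun U (hU : Stable ρ U) => Pool.Agent.X288.IR.two_parts ρ hρ ι T _ hT₀ halg hT S
    hgood (fun p hp => hp.2) U (fun g x hx => hU g x hx)
  have hp2 := (hT p hp).1.two_le
  refine ⟨fun k hk htr => ?_, fun hr2 hk q v hq hdual htr => ?_⟩
  · by_cases hall : ∃ w : ℚ, ∀ a ∈ X, IsPower p a w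
    · exact Or.inr hall
    left
    intro U hU
    have hdisj : ∀ a ∈ X, a ∉ Z := by
      intro a ha haZ
      obtain ⟨w, hw⟩ := hZ a haZ
      refine hall ⟨w, fun b hb => ?_⟩
      obtain ⟨σ, -, h3⟩ := htr a ha b hb
      rw [← h3]
      exact Pool.Agent.X288.IR.Rel.map (w := w) hw σ
    obtain ⟨w, w', h⟩ := hparts U hU
    obtain ⟨A, B, hAB, hA, hAw, hBw⟩ := h p hp
    obtain ⟨A₁, B₁, z, u, u', h1, h2, h3, h4, h5⟩ := Pool.Agent.X288.IR.split (by omega) hdisj hZ
      (hAB.trans hXZ) hAw hBw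
    by_cases hd : r ∣ Multiset.card A₁
    · obtain ⟨m, hm⟩ := hd
      refine ⟨m, z, h2, ?_⟩
      rw [← hA, h3, hm, mul_comm]
    · exact absurd (Pool.Agent.X288.IR.pp_final hp2 hnd hr hk htr h1 h4 h5 hd) hall
  · by_cases hall : ∃ w : ℚ, ∀ a ∈ X, IsPower p a w
    · exact Or.inr hall
    left
    intro U hU
    have hdisj : ∀ a ∈ X, a ∉ Z := by
      intro a ha haZ
      obtain ⟨w, hw⟩ := hZ a haZ
      refine hall ⟨w, fun b hb => ?_⟩
      obtain ⟨σ, -, -, h3⟩ := htr a ha b hb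
      rw [← h3]
      exact Pool.Agent.X288.IR.Rel.map (w := w) hw σ
    obtain ⟨w, w', h⟩ := hparts U hU
    obtain ⟨A, B, hAB, hA, hAw, hBw⟩ := h p hp
    obtain ⟨A₁, B₁, z, u, u', h1, h2, h3, h4, h5⟩ := Pool.Agent.X288.IR.split (by omega) hdisj hZ
      (hAB.trans hXZ) hAw hBw
    rcases Pool.Agent.X288.IR.dual_final hp2 hnd hr hr2 hk (v := v) hq hdual htr h1 h4 h5 with
      h6 | ⟨m, hm⟩ | h6
    · exact absurd h6 hall
    · refine ⟨m, z, h2, Or.inl ?_⟩
      rw [← hA, h3, hm]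
      ring
    · refine ⟨0, z, h2, Or.inr ?_⟩
      rw [← hA, h3, h6]

end Pool.Agent.Results.MP_fa5bba_nt.PrimePowerHecke
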