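import Pool.Agent.X289.SI.Fin

/-! For every `n` and every finite set `S` of primes there is one number field `L`, unramified outside `S`, such that
for all coefficient fields and all semisimple `n`-dimensional representations of the absolute Galois group of `ℚ`
that are mild outside `S`, the irreducible subrepresentations over extensions of `L` stay irreducible over all finite
extensions. -/

set_option autoImplicit false

namespace Pool.Agent.Results.MP_fa5bba_nt.StrongIrreducibilityField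

open Matrix Pool.Agent.Y800 Pool.Agent.X289.SI

theorem result (n : ℕ) (S : Finset ℕ) (hS : ∀ p ∈ S, p.Prime) :
    ∃ U : Subgroup GQ, U.Normal ∧ IsOpen (U : Set GQ) ∧ (S = ∅ → U = ⊤) ∧
      (∀ p : ℕ, p.Prime → p ∉ S → ∀ P : Ideal ZBar, P.IsMaximal → (p : ZBar) ∈ P → ∀ τ : GQ, InInertia P τ → τ ∈ U) ∧
      ∀ (Ω : Type) [Field Ω] [CharZero Ω] [IsAlgClosed Ω] (ρ : GQ →* GL (Fin n) Ω), IsSemisimple ρ →
        (∀ p : ℕ, p.Prime → p ∉ S → Mild ρ p ∨ UnipotentInertia ρ p) →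
        (∀ H ≤ U, ∀ W : Submodule Ω (Fin n → Ω), IrrOn ρ H W →
          ∀ H' ≤ H, IsOpen (H' : Set GQ) → IrrOn ρ H' W) ∧
        (IrrOn ρ U ⊤ → ∀ (ρ' : GQ →* GL (Fin n) Ω) (H : Subgroup GQ) (A : GL (Fin n) Ω), IsOpen (H : Set GQ) →
          (∀ g ∈ H, ρ' g = A * ρ g * A⁻¹) →
          ∃ χ : GQ →* Ωˣ, (∃ m : ℕ, 0 < m ∧ ∀ g, χ g ^ m = 1) ∧
            ∀ g, (ρ' g : Matrix (Fin n) (Fin n) Ω) =
              (χ g : Ω) • ((A * ρ g * A⁻¹ : GL (Fin n) Ω) : Matrix (Fin n) (Fin n) Ω)) := by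
  refine ⟨U n S, U_normal n S, U_open n S hS, ?_, U_inertia n S, ?_⟩
  · rintro rfl
    exact U_top n
  · intro Ω _ _ _ ρ hρ hm
    have hm' : ∀ p : ℕ, p.Prime → p ∉ S → Mild ρ p := fun p hp hpS =>
      (hm p hp hpS).elim id fun h => mild_of_unipotent ρ p h
    refine ⟨fun H hHU W hW H' hHH hHo => strong S hS ρ hρ hm' hHU hW H' hHH hHo, fun hI ρ' H A hH hA => ?_⟩
    have hopen : IsOpen ((H ⊓ U n S : Subgroup GQ) : Set GQ) := by
      rw [Subgroup.coe_inf]
      exact hH.inter (U_open n S hS)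
    obtain ⟨h1, -⟩ := open_core (H ⊓ U n S) hopen
    have h2 := strong S hS ρ hρ hm' le_rfl hI (H ⊓ U n S).normalCore
      ((H ⊓ U n S).normalCore_le.trans inf_le_right) h1
    exact twist ρ ρ' (H ⊓ U n S).normalCore (Subgroup.normalCore_normal _) (fin_index _ h1) h2 A
      fun g hg => hA g (((H ⊓ U n S).normalCore_le.trans inf_le_left) hg)

end Pool.Agent.Results.MP_fa5bba_nt.StrongIrreducibilityField
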